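import Pool.Agent.P.MP_2c7719_nt.Win.Main

/-- For large `k`, a solution of `a^k + b^k = c^k + d^k` that is `d^(-ε)`-close to a rational point
`(u : v : w : z)` of height at most `d^δ` is trivial or equal to that point. With
`u = v = w = z = 1`: the `k`-th powers of the integers in `[N, N + N^(1-ε)]` form a Sidon set. -/
theorem Pool.Agent.P.MP_2c7719_nt.Old.ShortWindows.result (ε : ℝ) (hε : 0 < ε) :
    ∃ k₀ : ℕ, ∀ k ≥ k₀, ∃ δ : ℝ, 0 < δ ∧ ∃ N₀ : ℕ,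
      ∀ a b c d u v w z : ℕ, N₀ ≤ d → 1 ≤ u → 1 ≤ v → 1 ≤ w → 1 ≤ z →
        (u : ℝ) ≤ (d : ℝ) ^ δ → (v : ℝ) ≤ (d : ℝ) ^ δ → (w : ℝ) ≤ (d : ℝ) ^ δ →
        (z : ℝ) ≤ (d : ℝ) ^ δ → |(a : ℝ) * z - d * u| ≤ (d : ℝ) ^ (1 - ε) →
        |(b : ℝ) * z - d * v| ≤ (d : ℝ) ^ (1 - ε) → |(c : ℝ) * z - d * w| ≤ (d : ℝ) ^ (1 - ε) →
        a ^ k + b ^ k = c ^ k + d ^ k →
        (a = c ∧ b = d) ∨ (a = d ∧ b = c) ∨ (a * z = d * u ∧ b * z = d * v ∧ c * z = d * w) :=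
  Pool.Agent.P.MP_2c7719_nt.Win.near ε hε
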